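import Pool.Agent.TH684.DI.Symm

/-!
# AND-distillation of an `NP`-hard language gives `NP = coNP`

Polynomial time is Mathlib's `Turing.TM2ComputableInPolyTime`, for functions on bit strings.

Drucker (2012): if an `NP`-complete language has an AND-distillation then `NP ⊆ coNP/poly` (this was
the AND-conjecture of Bodlaender, Downey, Fellows and Hermelin; for OR it is the theorem of Fortnow and
Santhanam). We show that then `NP = coNP`, without advice. The language may be any `NP`-hard one, the
target may be any language `B`, the algorithm may even be nondeterministic, and the converse holds for
nondeterministic algorithms. More generally this holds for each polynomial-time computable function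
`g` of the answers in place of AND which has polynomially large sensitivity, and for linear
sensitivity even for compressions of `t = n ^ b + b` instances of length at most `n` to
`c t log₂ (n + 2)` bits. All symmetric functions which are constant on `{0,1} ^ t` for no `t ≥ 1` have
linear sensitivity, for example AND, OR, parity and majority.

Proof. Let `w` be a vector of length `t` at which `g` is sensitive at many entries, half of them, say,
with the same value `e`. Reserve a block of `M` strings of a given list for each of these entries, and
fill the other entries with fixed yes-instances and no-instances according to `w`. There are more
choices of one string from each block than outputs, so two different choices have a common output. Let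
the string number `i` belong to the first one only. If all answers for the list were `e`, except for
the answer number `i`, then the two values of `g` would be different, by sensitivity. So this vector
of answers is impossible, and a nondeterministic polynomial-time algorithm can find it: it guesses `w`
and the collision (no advice, no counting and no information theory is necessary). Now cite the
theorem that the nondeterministic exclusion of one vector of answers from an explicit family, for an
`NP`-hard set, gives `NP = coNP` (`Pool.Agent.TH684.CX`).
-/

set_option autoImplicit false

namespace Pool.Agent.Results.MP_9cec2c_lc.AndDistillation

open Pool.Agent.NPC Pool.Agent.TH684.DI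

/-- **AND-distillation of an `NP`-hard language gives `NP = coNP`**, and the same for all sensitive
functions of the answers in place of AND. -/
theorem result :
    (∀ A B : Set (List Bool), NPHard A → Distills (AllIn A) B →
      ∀ S : Set (List Bool), InNP S → InNP Sᶜ) ∧
    ∀ g : List Bool → Bool, PolyTime (fun z => [g z]) →
      (PolySens g →
        (∀ A B : Set (List Bool), NPHard A → Distills (Val g A) B →
          ∀ S : Set (List Bool), InNP S → InNP Sᶜ) ∧
        List.TFAE
          [∀ S : Set (List Bool), InNP S → InNP Sᶜ,
            ∃ A B : Set (List Bool), NPHard A ∧ NDistills (Val g A) B,
            ∀ A : Set (List Bool), InNP A → ∃ B : Set (List Bool), NDistills (Val g A) B]) ∧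
      (LinSens g → ((∀ S : Set (List Bool), InNP S → InNP Sᶜ) ↔
        ∃ A B : Set (List Bool), NPHard A ∧ NCompresses (Val g A) B)) ∧
      (LinSens g → PolySens g) ∧ (Symm g → NonConst g → LinSens g) :=
  ⟨fun _ _ hA h _ hS => compl_of_and hA (ncompresses_of_ndistills (ndistills_of_distills h)) hS,
    fun _ hg => ⟨fun hs => ⟨fun _ _ hA h _ hS =>
      compl_of_sens (poly_of_singleton hg) hs hA (ndistills_of_distills h) hS,
      sens_tfae (poly_of_singleton hg) hs⟩,
      fun hs => (linsens_tfae (poly_of_singleton hg) hs).out 0 2,
      polySens_of_linSens, linSens_of_symm⟩⟩

end Pool.Agent.Results.MP_9cec2c_lc.AndDistillation
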