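import Mathlib
import Pool.Agent.TH689.LVMain

/-!
# Static proofs with arbitrary libraries

A proof of `NP ≠ coNP` has to show that no proof system has short refutations of all unsatisfiable
CNF formulas. Here we consider static proof systems with arbitrary building blocks. Take any library
of `N ≤ 2 ^ w` functions `G j` of the assignment with values in `[0, 1]`, for instance all products
of literals, all squares of polynomials of a given description size, or all functions computed by
Boolean circuits of size `w / log w`. A static proof that `F` is unsatisfiable is an identity

  `∑ C ∈ F, ∑ j, mult C j * G j * [C is false] = 1 + ∑ j, coeff j * G j`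

with real multipliers and nonnegative coefficients. With products of literals this is the
Sherali-Adams system (and Nullstellensatz over the reals), with squares the sum of squares system;
a decision tree with `t` leaves, whose queries are arbitrary predicates, is a static proof of size
`t` whose terms do not cancel at all (the library consists of the indicator functions of the
leaves). The size of a static proof is the sum of the absolute values of its coefficients, so for
integral coefficients it is the number of terms (the unary size); the mass measures the amount of
cancellations: it is the average over all assignments of the sum of the absolute values of the terms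
on the left hand side, while the sum of these terms is the right hand side.

We show that for every library the size has to be `2 ^ ((1 - ε) n)` if the mass is at most
`2 ^ (n / c)`. The formula `F` has `n` variables and `m` clauses with at most `log m` literals, where
`m` is any number which is larger than fixed powers of `n` and of the description size `w` of the
functions of the library, and at most `2 ^ (n / c)`. Exhaustive search is a static proof of size
`2 ^ n` and mass `1`.

Proof. The formulas say that `K` pigeons sit in `H < K` holes without collisions; the hole of the
`i`-th pigeon is given by an arbitrary table at a position given by the `i`-th block of `O(log m)`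
variables. There is a signed measure for pairs of lists of tables and assignments, under which any
`H` pigeons sit in distinct holes. Its pairing with the constant `1` is `1`; its pairing with the
product of a nonnegative function of the tables and a nonnegative function of the assignments is
nearly nonnegative; and the absolute value of its pairing with such a product is tiny if the factors
force a collision. The last two facts fail for given tables with doubly exponentially small
probability only, so that all functions of the library can be treated at once.
-/

set_option autoImplicit false

namespace Pool.Agent.Results.MP_9cec2c_lc.AnyLibraryStaticProofs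

open Pool.Agent.H538R2.SB Pool.Agent.TH689.LX

theorem result :
    (∀ ε : ℝ, 0 < ε → ∃ c : ℕ, 1 ≤ c ∧ ∀ n m w N : ℕ, c ≤ n → n ^ c ≤ m → m ^ c ≤ 2 ^ n →
      w ^ c ≤ m → N ≤ 2 ^ w →
      ∀ G : Fin N → Asg n → ℝ, (∀ j x, 0 ≤ G j x ∧ G j x ≤ 1) →
      ∃ F : Finset (Clause n), F.card ≤ m ∧ (∀ C ∈ F, 2 ^ C.card ≤ m) ∧
        (∀ x, n ≤ c * Nat.log 2 m * falsified F x) ∧
        ∀ P : StaticProof G F, P.mass ≤ (2 : ℝ) ^ ((n : ℝ) / c) →
          (2 : ℝ) ^ ((1 - ε) * n) ≤ P.size) ∧
    (∀ n : ℕ, ∃ G : Fin (2 ^ n) → Asg n → ℝ, (∀ j x, 0 ≤ G j x ∧ G j x ≤ 1) ∧
      ∀ F : Finset (Clause n), (∀ x, ∃ C ∈ F, FalseAt C x) →
        ∃ P : StaticProof G F, P.mass ≤ 1 ∧ P.size ≤ 2 ^ n) :=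
  ⟨static_proofs, static_upper⟩

end Pool.Agent.Results.MP_9cec2c_lc.AnyLibraryStaticProofs
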