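import Pool.Agent.H877R3.Join.Main

/-!
# Is `NP = coNP` preserved by joins of oracles?

The theorem says that the collapse `P = PSPACE` (in particular `NP = coNP`) relative to oracles is
not preserved by joins, in a strong form: there are infinitely many oracles `A 0`, `A 1`, ..., all
of them `PSPACE`-complete relative to themselves (so that `P = NP = coNP = PSPACE` relative to each
of them), and all of them above a given oracle `C`, such that relative to the join of any two of
them, `UP` is not contained in `coNP`.
-/

set_option autoImplicit false

namespace Pool.Agent.Results.MP_9cec2c_lc.JoinsOfOracles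

open Pool.Agent.NPC Pool.Agent.H620R2.Gauge Pool.Agent.H877R3.Join

/-- For every oracle `C` there are oracles `A 0`, `A 1`, ... such that

1. `C` reduces to every `A i`, every language which is in `PSPACE` relative to `A i` reduces to
`A i`, and `P = PSPACE` relative to `A i`;

2. for `i ≠ j` there is a language which is in `UP` relative to the join of `A i` and `A j` and
whose complement is not in `NP` relative to this join. -/
theorem result (C : Oracle) : ∃ A : ℕ → Oracle,
    (∀ i : ℕ, Reduces {x | C x = true} {x | A i x = true} ∧
      (∀ L : Set (List Bool), IsPSPACE (A i) L → Reduces L {x | A i x = true}) ∧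
      ∀ L : Set (List Bool), IsP (A i) L ↔ IsPSPACE (A i) L) ∧
    ∀ i j : ℕ, i ≠ j → ∃ L : Set (List Bool), IsUP (join (A i) (A j)) L ∧
      ¬ IsNP (join (A i) (A j)) Lᶜ :=
  main C

end Pool.Agent.Results.MP_9cec2c_lc.JoinsOfOracles
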